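import Mathlib
import Pool.Agent.Helper390.CovarioA

/-!
# A Hausdorff-Young type inequality for functions with small level sets
-/

set_option autoImplicit false

namespace Pool.Agent.TH941.FN

open MeasureTheory Set Complex FourierTransform
open scoped ENNReal NNReal RealInnerProductSpace

/-- weighted Jensen inequality for series -/
theorem jensen_tsum (q : ℝ) (hq : 1 < q) (b c : ℕ → ℝ≥0∞) (h0 : ∀ k, c k ≠ 0)
    (h1 : ∀ k, c k ≠ ∞) :
    (∑' k, b k) ^ q ≤ (∑' k, c k) ^ (q - 1) * ∑' k, c k ^ (1 - q) * b k ^ q := by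
  have hq0 : 0 < q := by linarith
  have hq1 : 0 < q - 1 := by linarith
  have h := ENNReal.lintegral_mul_le_Lp_mul_Lq (Measure.count : Measure ℕ) (p := q / (q - 1))
    (q := q)
    (by
      rw [Real.holderConjugate_iff]
      refine ⟨?_, ?_⟩
      · rw [lt_div_iff₀ hq1]; linarith
      · field_simp
        ring) (f := fun k => c k ^ ((q - 1) / q)) (g := fun k => c k ^ (-((q - 1) / q)) * b k)
    (measurable_from_nat).aemeasurable (measurable_from_nat).aemeasurable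
  rw [lintegral_count, lintegral_count, lintegral_count] at h
  have e1 : ∀ k, ((fun k => c k ^ ((q - 1) / q)) * fun k => c k ^ (-((q - 1) / q)) * b k) k =
      b k := by
    intro k
    simp only [Pi.mul_apply]
    rw [← mul_assoc, ← ENNReal.rpow_add _ _ (h0 k) (h1 k), add_neg_cancel, ENNReal.rpow_zero,
      one_mul]
  have e2 : ∀ k, (c k ^ ((q - 1) / q)) ^ (q / (q - 1)) = c k := by
    intro k
    rw [← ENNReal.rpow_mul]
    have : (q - 1) / q * (q / (q - 1)) = 1 := by field_simp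
    rw [this, ENNReal.rpow_one]
  have e3 : ∀ k, (c k ^ (-((q - 1) / q)) * b k) ^ q = c k ^ (1 - q) * b k ^ q := by
    intro k
    rw [ENNReal.mul_rpow_of_nonneg _ _ hq0.le, ← ENNReal.rpow_mul]
    congr 2
    field_simp
    ring
  simp_rw [e1, e2, e3] at h
  calc (∑' k, b k) ^ q ≤ ((∑' k, c k) ^ (1 / (q / (q - 1))) *
        (∑' k, c k ^ (1 - q) * b k ^ q) ^ (1 / q)) ^ q := by gcongr
    _ = (∑' k, c k) ^ (q - 1) * ∑' k, c k ^ (1 - q) * b k ^ q := by
      rw [ENNReal.mul_rpow_of_nonneg _ _ hq0.le, ← ENNReal.rpow_mul, ← ENNReal.rpow_mul]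
      have a1 : 1 / (q / (q - 1)) * q = q - 1 := by field_simp
      have a2 : 1 / q * q = 1 := by field_simp
      rw [a1, a2, ENNReal.rpow_one]

variable {V : Type*} [NormedAddCommGroup V] [InnerProductSpace ℝ V] [FiniteDimensional ℝ V]
  [MeasurableSpace V] [BorelSpace V]

/-- the Fourier transform without the factor `2 π` -/
noncomputable def ft (G : V → ℂ) (y : V) : ℂ :=
  ∫ w, cexp (-((⟪y, w⟫ : ℝ) : ℂ) * I) * G w

theorem ft_eq (G : V → ℂ) (y : V) : ft G y = 𝓕 G ((2 * Real.pi)⁻¹ • y) := by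
  rw [Real.fourier_eq', ft]
  congr 1
  ext w
  have h : (-2 * Real.pi * ⟪w, (2 * Real.pi)⁻¹ • y⟫ : ℝ) = -⟪y, w⟫ := by
    rw [real_inner_smul_right, real_inner_comm]
    have := Real.pi_pos
    field_simp
  rw [h, smul_eq_mul]
  push_cast
  rfl

theorem ft_cont {G : V → ℂ} (h1 : Integrable G) : Continuous (ft G) := by
  have hcont : Continuous (𝓕 G) :=
    VectorFourier.fourierIntegral_continuous Real.continuous_fourierChar continuous_inner h1
  have : ft G = fun y => 𝓕 G ((2 * Real.pi)⁻¹ • y) := funext (ft_eq G)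
  rw [this]
  exact hcont.comp (continuous_const_smul _)

theorem ft_sq {G : V → ℂ} (h1 : Integrable G) (h2 : MemLp G 2) :
    ∫⁻ y, ‖ft G y‖ₑ ^ (2 : ℝ) = ENNReal.ofReal ((2 * Real.pi) ^ (Module.finrank ℝ V) *
      ∫ w, ‖G w‖ ^ 2) := by
  obtain ⟨hm, he⟩ := Pool.Agent.Helper390.Covario.plancherel h1 h2
  have hpi : (0 : ℝ) < 2 * Real.pi := by positivity
  have hi0 : Integrable (fun ξ => ‖𝓕 G ξ‖ ^ 2) := hm.integrable_norm_pow (by norm_num)
  have hi : Integrable (fun y : V => ‖𝓕 G ((2 * Real.pi)⁻¹ • y)‖ ^ 2) :=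
    (integrable_comp_smul_iff volume (fun ξ => ‖𝓕 G ξ‖ ^ 2) (inv_ne_zero hpi.ne')).2 hi0
  have e1 : ∫ y : V, ‖𝓕 G ((2 * Real.pi)⁻¹ • y)‖ ^ 2 =
      (2 * Real.pi) ^ (Module.finrank ℝ V) * ∫ w, ‖G w‖ ^ 2 := by
    rw [Measure.integral_comp_smul volume (fun ξ => ‖𝓕 G ξ‖ ^ 2), he, smul_eq_mul, inv_pow,
      inv_inv, abs_of_pos (by positivity)]
  rw [← e1, ofReal_integral_eq_lintegral_ofReal hi (Filter.Eventually.of_forall fun y => by
    positivity)]
  refine lintegral_congr fun y => ?_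
  rw [← ft_eq, ← ofReal_norm, ENNReal.ofReal_rpow_of_nonneg (norm_nonneg _) (by norm_num)]
  norm_num

/-- Hausdorff-Young for functions bounded by `M 2^k` on sets of measure at most `K 4^(-k)` -/
theorem hy {K : ℝ} (hK : 0 ≤ K) {r : ℝ} (hr : 2 < r) : ∃ C : ℝ≥0, ∀ B : ℕ → Set V,
    (∀ k, MeasurableSet (B k)) → Pairwise (Function.onFun Disjoint B) →
    (∀ k, volume (B k) ≤ ENNReal.ofReal (K * (1 / 4) ^ k)) → ∀ G : V → ℂ, Measurable G →
    ∀ M : ℝ, 0 ≤ M → (∀ k, ∀ w ∈ B k, ‖G w‖ ≤ M * 2 ^ k) → (∀ w, w ∉ ⋃ k, B k → G w = 0) →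
    ∫⁻ y, ‖ft G y‖ₑ ^ r ≤ C * ENNReal.ofReal M ^ r := by
  set n := Module.finrank ℝ V with hn
  set η : ℝ := (2 : ℝ) ^ (-(r - 2) / 2) with hη
  have hη0 : 0 < η := Real.rpow_pos_of_pos two_pos _
  have hη1 : η < 1 := Real.rpow_lt_one_of_one_lt_of_neg one_lt_two (by linarith)
  have hη2 : ((2 : ℝ) ^ (-(1 : ℝ))) ^ (r - 2) = η * η := by
    rw [← Real.rpow_mul two_pos.le, hη, ← Real.rpow_add two_pos]
    congr 1; ring
  set θ : ℝ := η ^ (1 / (r - 1)) with hθ
  have hr1 : 0 < r - 1 := by linarith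
  have hθ0 : 0 < θ := Real.rpow_pos_of_pos hη0 _
  have hθ1 : θ < 1 := Real.rpow_lt_one hη0.le hη1 (by positivity)
  have hθη : θ ^ (1 - r) = η⁻¹ := by
    rw [hθ, ← Real.rpow_mul hη0.le, ← Real.rpow_neg_one]
    congr 1
    field_simp
    ring
  set A : ℝ := K ^ (r - 2) * ((2 * Real.pi) ^ n * K) with hA
  have hA0 : 0 ≤ A := by positivity
  set c : ℕ → ℝ≥0∞ := fun k => ENNReal.ofReal (θ ^ k) with hc
  have hc0 : ∀ k, c k ≠ 0 := fun k => by
    rw [hc]; exact (ENNReal.ofReal_pos.2 (pow_pos hθ0 k)).ne'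
  have hc1 : ∀ k, c k ≠ ∞ := fun k => ENNReal.ofReal_ne_top
  have hsc : ∑' k, c k ≠ ∞ := by
    rw [hc, ← ENNReal.ofReal_tsum_of_nonneg (fun k => (pow_pos hθ0 k).le)
      (summable_geometric_of_lt_one hθ0.le hθ1)]
    exact ENNReal.ofReal_ne_top
  have hsA : ∑' k : ℕ, ENNReal.ofReal (A * η ^ k) ≠ ∞ := by
    rw [← ENNReal.ofReal_tsum_of_nonneg (fun k => by positivity)
      ((summable_geometric_of_lt_one hη0.le hη1).mul_left A)]
    exact ENNReal.ofReal_ne_top
  set Cc : ℝ≥0∞ := (∑' k, c k) ^ (r - 1) * ∑' k : ℕ, ENNReal.ofReal (A * η ^ k) with hCc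
  have hCct : Cc ≠ ∞ := ENNReal.mul_ne_top (ENNReal.rpow_ne_top_of_nonneg hr1.le hsc) hsA
  refine ⟨Cc.toNNReal, ?_⟩
  intro B hB hd hvol G hG M hM hGB hG0
  rw [ENNReal.coe_toNNReal hCct]
  have hvt : ∀ k, volume (B k) < ∞ := fun k => (hvol k).trans_lt ENNReal.ofReal_lt_top
  have hvr : ∀ k, volume.real (B k) ≤ K * (1 / 4) ^ k := fun k => by
    rw [Measure.real]
    exact ENNReal.toReal_le_of_le_ofReal (by positivity) (hvol k)
  -- the pieces
  set Gk : ℕ → V → ℂ := fun k => (B k).indicator G with hGk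
  have hfin : ∀ k, IsFiniteMeasure (volume.restrict (B k)) := fun k =>
    ⟨by rw [Measure.restrict_apply_univ]; exact hvt k⟩
  have hbd : ∀ k, ∀ᵐ w ∂(volume.restrict (B k)), ‖G w‖ ≤ M * 2 ^ k := fun k => by
    filter_upwards [ae_restrict_mem (hB k)] with w hw
    exact hGB k w hw
  have hLp : ∀ k (p : ℝ≥0∞), MemLp (Gk k) p := fun k p => by
    have := hfin k
    exact (memLp_indicator_iff_restrict (hB k)).2
      (MemLp.of_bound hG.aestronglyMeasurable (M * 2 ^ k) (hbd k))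
  have hI : ∀ k, Integrable (Gk k) := fun k => memLp_one_iff_integrable.1 (hLp k 1)
  have hftk : ∀ k y, ft (Gk k) y = ∫ w in B k, cexp (-((⟪y, w⟫ : ℝ) : ℂ) * I) * G w := by
    intro k y
    rw [ft, ← integral_indicator (hB k)]
    congr 1
    ext w
    by_cases hw : w ∈ B k
    · simp [hGk, hw]
    · simp [hGk, hw]
  have hnorm : ∀ (y w : V), ‖cexp (-((⟪y, w⟫ : ℝ) : ℂ) * I)‖ = 1 := by
    intro y w
    have : -((⟪y, w⟫ : ℝ) : ℂ) * I = ((-⟪y, w⟫ : ℝ) : ℂ) * I := by push_cast; ring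
    rw [this, Complex.norm_exp_ofReal_mul_I]
  have hsup : ∀ k y, ‖ft (Gk k) y‖ ≤ M * K * (1 / 2) ^ k := by
    intro k y
    rw [hftk]
    have h1 := norm_setIntegral_le_of_norm_le_const (μ := (volume : Measure V)) (s := B k)
      (f := fun w => cexp (-((⟪y, w⟫ : ℝ) : ℂ) * I) * G w) (C := M * 2 ^ k) (hvt k)
      (fun w hw => by rw [norm_mul, hnorm, one_mul]; exact hGB k w hw)
    refine h1.trans ?_
    calc M * 2 ^ k * volume.real (B k) ≤ M * 2 ^ k * (K * (1 / 4) ^ k) :=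
          mul_le_mul_of_nonneg_left (hvr k) (by positivity)
      _ = M * K * (1 / 2) ^ k := by
        have : (2 : ℝ) ^ k * (1 / 4) ^ k = (1 / 2) ^ k := by rw [← mul_pow]; norm_num
        calc M * 2 ^ k * (K * (1 / 4) ^ k) = M * K * (2 ^ k * (1 / 4) ^ k) := by ring
          _ = _ := by rw [this]
  have hL2 : ∀ k, ∫ w, ‖Gk k w‖ ^ 2 ≤ K * M ^ 2 := by
    intro k
    have e1 : ∫ w, ‖Gk k w‖ ^ 2 = ∫ w in B k, ‖G w‖ ^ 2 := by
      rw [← integral_indicator (hB k)]
      congr 1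
      ext w
      by_cases hw : w ∈ B k
      · simp [hGk, hw]
      · simp [hGk, hw]
    rw [e1]
    have h1 := norm_setIntegral_le_of_norm_le_const (μ := (volume : Measure V)) (s := B k)
      (f := fun w => ‖G w‖ ^ 2) (C := (M * 2 ^ k) ^ 2) (hvt k)
      (fun w hw => by
        rw [norm_pow, norm_norm]
        exact pow_le_pow_left₀ (norm_nonneg _) (hGB k w hw) 2)
    refine (le_abs_self _).trans (h1.trans ?_)
    calc (M * 2 ^ k) ^ 2 * volume.real (B k) ≤ (M * 2 ^ k) ^ 2 * (K * (1 / 4) ^ k) :=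
          mul_le_mul_of_nonneg_left (hvr k) (by positivity)
      _ = K * M ^ 2 := by
        have : ((2 : ℝ) ^ k) ^ 2 * (1 / 4) ^ k = 1 := by
          rw [← pow_mul, mul_comm k 2, pow_mul, ← mul_pow]; norm_num
        calc (M * 2 ^ k) ^ 2 * (K * (1 / 4) ^ k) = K * M ^ 2 * ((2 ^ k) ^ 2 * (1 / 4) ^ k) := by
              ring
          _ = _ := by rw [this, mul_one]
  have hkey : ∀ k, ∫⁻ y, ‖ft (Gk k) y‖ₑ ^ r ≤
      ENNReal.ofReal (A * (η * η) ^ k) * ENNReal.ofReal M ^ r := by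
    intro k
    have h1 : ∀ y, ‖ft (Gk k) y‖ₑ ^ r ≤
        ENNReal.ofReal (M * K * (1 / 2) ^ k) ^ (r - 2) * ‖ft (Gk k) y‖ₑ ^ (2 : ℝ) := by
      intro y
      have h2 : ‖ft (Gk k) y‖ₑ ≤ ENNReal.ofReal (M * K * (1 / 2) ^ k) := by
        rw [← ofReal_norm]
        exact ENNReal.ofReal_le_ofReal (hsup k y)
      have h3 : ‖ft (Gk k) y‖ₑ ^ r = ‖ft (Gk k) y‖ₑ ^ (r - 2) * ‖ft (Gk k) y‖ₑ ^ (2 : ℝ) := by
        rw [← ENNReal.rpow_add_of_nonneg _ _ (by linarith) (by norm_num)]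
        congr 1; ring
      rw [h3]
      gcongr
    calc ∫⁻ y, ‖ft (Gk k) y‖ₑ ^ r ≤ ∫⁻ y, ENNReal.ofReal (M * K * (1 / 2) ^ k) ^ (r - 2) *
          ‖ft (Gk k) y‖ₑ ^ (2 : ℝ) := lintegral_mono h1
      _ = ENNReal.ofReal (M * K * (1 / 2) ^ k) ^ (r - 2) *
          ∫⁻ y, ‖ft (Gk k) y‖ₑ ^ (2 : ℝ) := by
        rw [lintegral_const_mul _ ((ft_cont (hI k)).measurable.enorm.pow_const _)]
      _ ≤ ENNReal.ofReal (M * K * (1 / 2) ^ k) ^ (r - 2) *
          ENNReal.ofReal ((2 * Real.pi) ^ n * (K * M ^ 2)) := by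
        rw [ft_sq (hI k) (hLp k 2)]
        gcongr
        exact hL2 k
      _ = ENNReal.ofReal (A * (η * η) ^ k) * ENNReal.ofReal M ^ r := by
        rw [ENNReal.ofReal_rpow_of_nonneg (by positivity) (by linarith),
          ← ENNReal.ofReal_mul (by positivity), ENNReal.ofReal_rpow_of_nonneg hM (by linarith),
          ← ENNReal.ofReal_mul (by positivity)]
        congr 1
        have e1 : M ^ r = M ^ (r - 2) * M ^ 2 := by
          rw [← Real.rpow_natCast M 2, ← Real.rpow_add_of_nonneg hM (by linarith) (by norm_num)]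
          congr 1; push_cast; ring
        have e2 : ((1 / 2 : ℝ) ^ k) ^ (r - 2) = (η * η) ^ k := by
          rw [← hη2, ← Real.rpow_natCast, ← Real.rpow_natCast, ← Real.rpow_mul (by norm_num),
            ← Real.rpow_mul (by positivity), Real.rpow_neg_one, one_div]
          congr 1; ring
        rw [Real.mul_rpow (by positivity) (by positivity), Real.mul_rpow hM hK, e1, e2, hA]
        ring
  -- pointwise sum
  have hpt : ∀ y, ‖ft G y‖ₑ ≤ ∑' k, ‖ft (Gk k) y‖ₑ := by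
    intro y
    by_cases hint : Integrable (fun w => cexp (-((⟪y, w⟫ : ℝ) : ℂ) * I) * G w)
    · have h1 := hasSum_integral_iUnion hB hd
        (f := fun w => cexp (-((⟪y, w⟫ : ℝ) : ℂ) * I) * G w) (μ := volume) hint.integrableOn
      have h2 : ∫ w in ⋃ k, B k, cexp (-((⟪y, w⟫ : ℝ) : ℂ) * I) * G w = ft G y := by
        rw [ft]
        apply setIntegral_eq_integral_of_forall_compl_eq_zero
        intro w hw
        rw [hG0 w hw, mul_zero]
      rw [h2] at h1
      simp_rw [← hftk] at h1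
      rw [← h1.tsum_eq]
      exact enorm_tsum_le_tsum_enorm
    · rw [ft, integral_undef hint]
      simp
  calc ∫⁻ y, ‖ft G y‖ₑ ^ r ≤ ∫⁻ y, (∑' k, c k) ^ (r - 1) *
        ∑' k, c k ^ (1 - r) * ‖ft (Gk k) y‖ₑ ^ r := by
        refine lintegral_mono fun y => ?_
        refine le_trans (ENNReal.rpow_le_rpow (hpt y) (by linarith)) ?_
        exact jensen_tsum r (by linarith) _ c hc0 hc1
    _ = (∑' k, c k) ^ (r - 1) * ∑' k, c k ^ (1 - r) * ∫⁻ y, ‖ft (Gk k) y‖ₑ ^ r := by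
        have hmk : ∀ k, Measurable (fun y => ‖ft (Gk k) y‖ₑ ^ r) := fun k =>
          (ft_cont (hI k)).measurable.enorm.pow_const _
        rw [lintegral_const_mul _ (Measurable.tsum fun k => (hmk k).const_mul _),
          lintegral_tsum fun k => ((hmk k).const_mul _).aemeasurable]
        congr 2
        ext k
        rw [lintegral_const_mul _ (hmk k)]
    _ ≤ (∑' k, c k) ^ (r - 1) * ∑' k, (ENNReal.ofReal (A * η ^ k) * ENNReal.ofReal M ^ r) := by
        refine mul_le_mul' le_rfl (ENNReal.tsum_le_tsum fun k => ?_)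
        calc c k ^ (1 - r) * ∫⁻ y, ‖ft (Gk k) y‖ₑ ^ r ≤ c k ^ (1 - r) *
              (ENNReal.ofReal (A * (η * η) ^ k) * ENNReal.ofReal M ^ r) := by
                gcongr
                exact hkey k
          _ = ENNReal.ofReal (A * η ^ k) * ENNReal.ofReal M ^ r := by
            rw [← mul_assoc, hc]
            congr 1
            simp only
            rw [ENNReal.ofReal_rpow_of_pos (pow_pos hθ0 k), ← ENNReal.ofReal_mul (by positivity)]
            congr 1
            have e1 : (θ ^ k) ^ (1 - r) = (η⁻¹) ^ k := by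
              rw [← hθη, ← Real.rpow_natCast, ← Real.rpow_natCast, ← Real.rpow_mul hθ0.le,
                ← Real.rpow_mul hθ0.le]
              congr 1; ring
            rw [e1, mul_pow, inv_pow]
            field_simp
    _ = Cc * ENNReal.ofReal M ^ r := by
        rw [ENNReal.tsum_mul_right, hCc]; ring

end Pool.Agent.TH941.FN
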