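import Mathlib
import Pool.Agent.H438R2.BR.T11
import Pool.Agent.H789R2.FR.Sph
import Pool.Agent.Helper390.CovarioA
import Pool.Agent.TH941.FN.HY

/-!
# Vertex bound on the sphere: `L^∞` in one variable, `L^r` in the others (job 1617)
-/

set_option autoImplicit false

namespace Pool.Agent.TH941.FN

open MeasureTheory Set Complex
open scoped ENNReal NNReal RealInnerProductSpace
open Pool.Agent.H789R2.FR (E sg T sg_finite)
open Pool.Agent.H438R2.BR (J J_inner J_mp)
open Pool.Agent.H438R2.BR.T10 (sg_one_univ)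

/-- the dyadic shells of the ball -/
def sh (m k : ℕ) : Set (E m) :=
  {w | (1 / 4 : ℝ) ^ (k + 1) < 1 - ‖w‖ ^ 2 ∧ 1 - ‖w‖ ^ 2 ≤ (1 / 4 : ℝ) ^ k}

theorem sh_meas (m k : ℕ) : MeasurableSet (sh m k) := by
  have h : Measurable (fun w : E m => 1 - ‖w‖ ^ 2) := by fun_prop
  exact (measurableSet_lt measurable_const h).inter (measurableSet_le h measurable_const)

theorem sh_disj (m : ℕ) : Pairwise (Function.onFun Disjoint (sh m)) := by
  intro i j hij
  rw [Function.onFun, Set.disjoint_left]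
  intro w hi hj
  have key : ∀ a b : ℕ, a < b → w ∈ sh m a → w ∈ sh m b → False := by
    intro a b hab ha hb
    have h1 := ha.1
    have h2 := hb.2
    have h3 : (1 / 4 : ℝ) ^ b ≤ (1 / 4 : ℝ) ^ (a + 1) :=
      pow_le_pow_of_le_one (by norm_num) (by norm_num) hab
    linarith
  rcases lt_or_gt_of_ne hij with h | h
  · exact key i j h hi hj
  · exact key j i h hj hi

theorem sh_union (m : ℕ) : ⋃ k, sh m k = Metric.ball (0 : E m) 1 := by
  ext w
  rw [mem_iUnion, mem_ball_zero_iff]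
  constructor
  · rintro ⟨k, hk⟩
    have h1 : 0 < (1 / 4 : ℝ) ^ (k + 1) := by positivity
    have h2 : ‖w‖ ^ 2 < 1 := by have := hk.1; linarith
    nlinarith [norm_nonneg w]
  · intro h
    have h1 : 0 < 1 - ‖w‖ ^ 2 := by nlinarith [norm_nonneg w]
    have h2 : 1 - ‖w‖ ^ 2 ≤ 1 := by nlinarith [norm_nonneg w]
    obtain ⟨k, h3, h4⟩ := exists_nat_pow_near_of_lt_one h1 h2 (y := (1 / 4 : ℝ)) (by norm_num)
      (by norm_num)
    exact ⟨k, h3, h4⟩

theorem sh_vol (m k : ℕ) (hm : 1 ≤ m) : volume (sh m k) ≤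
    ENNReal.ofReal ((volume.real (Metric.ball (0 : E m) 1) * m) * (1 / 4) ^ k) := by
  have hne : Nonempty (Fin m) := ⟨⟨0, hm⟩⟩
  set s : ℝ := (1 / 4) ^ k with hs
  have hs0 : 0 < s := by positivity
  have hs1 : s ≤ 1 := pow_le_one₀ (by norm_num) (by norm_num)
  set t : ℝ := Real.sqrt (1 - s) with ht
  have ht0 : 0 ≤ t := Real.sqrt_nonneg _
  have ht2 : t ^ 2 = 1 - s := Real.sq_sqrt (by linarith)
  have ht1 : t ≤ 1 := by nlinarith
  have hsub : sh m k ⊆ Metric.ball (0 : E m) 1 \ Metric.ball (0 : E m) t := by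
    intro w hw
    refine ⟨?_, ?_⟩
    · rw [← sh_union m]; exact mem_iUnion.2 ⟨k, hw⟩
    · rw [mem_ball_zero_iff, not_lt]
      have h2 := hw.2
      have h3 : t ^ 2 ≤ ‖w‖ ^ 2 := by rw [ht2]; linarith
      exact le_of_sq_le_sq h3 (norm_nonneg _)
  have hb : volume (Metric.ball (0 : E m) t) ≠ ∞ := measure_ball_lt_top.ne
  have hb1 : volume (Metric.ball (0 : E m) 1) ≠ ∞ := measure_ball_lt_top.ne
  refine (measure_mono hsub).trans ?_
  rw [measure_sdiff (Metric.ball_subset_ball ht1) measurableSet_ball.nullMeasurableSet hb]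
  have e1 : volume (Metric.ball (0 : E m) t) =
      ENNReal.ofReal (t ^ m) * volume (Metric.ball (0 : E m) 1) := by
    rw [Measure.addHaar_ball _ _ ht0]
    simp
  rw [e1]
  have e2 : volume (Metric.ball (0 : E m) 1) =
      ENNReal.ofReal (volume.real (Metric.ball (0 : E m) 1)) := by
    rw [Measure.real, ENNReal.ofReal_toReal hb1]
  set v : ℝ := volume.real (Metric.ball (0 : E m) 1) with hv
  have hv0 : 0 ≤ v := measureReal_nonneg
  rw [e2, ← ENNReal.ofReal_mul (by positivity), ← ENNReal.ofReal_sub _ (by positivity)]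
  apply ENNReal.ofReal_le_ofReal
  have h5 : 1 - m * s ≤ t ^ m := by
    have h6 : 1 - s ≤ t := by nlinarith
    have h7 := one_add_mul_le_pow (a := -s) (by linarith) m
    have h8 : (1 + -s) ^ m ≤ t ^ m := pow_le_pow_left₀ (by linarith) (by linarith) m
    linarith
  have h9 : v - t ^ m * v = v * (1 - t ^ m) := by ring
  rw [h9]
  nlinarith

/-- the parametrisation -/
noncomputable def pr (m : ℕ) (p : E m × E 1) : E (1 + m) :=
  J (Real.sqrt (1 - ‖p.1‖ ^ 2) • p.2) p.1

theorem pr_meas (m : ℕ) : Measurable (pr m) := by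
  have h1 := (J_mp 1 m).measurable
  have h2 : Measurable (fun p : E m × E 1 =>
      ((Real.sqrt (1 - ‖p.1‖ ^ 2) • p.2, p.1) : E 1 × E m)) := by
    apply Measurable.prodMk
    · exact (by fun_prop : Measurable fun p : E m × E 1 => Real.sqrt (1 - ‖p.1‖ ^ 2)).smul
        measurable_snd
    · exact measurable_fst
  exact h1.comp h2

/-- the weight -/
noncomputable def wt (m : ℕ) (y : E m) : ℝ≥0∞ :=
  ENNReal.ofReal ((1 - ‖y‖ ^ 2) ^ ((((1 : ℕ) : ℝ) - 2) / 2))

theorem wt_meas (m : ℕ) : Measurable (wt m) := by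
  unfold wt
  exact (by fun_prop : Measurable fun y : E m => (1 - ‖y‖ ^ 2)).pow_const _ |>.ennreal_ofReal

/-- the measure on the ball -/
noncomputable def mu (m : ℕ) : Measure (E m) :=
  (volume.restrict (Metric.ball (0 : E m) 1)).withDensity (wt m)

theorem sg_eq' (m : ℕ)
    (harch : ∀ f : E (1 + m) → ℝ≥0∞, Measurable f →
      ∫⁻ z, f z ∂(sg (1 + m)) = ∫⁻ y in Metric.ball (0 : E m) 1,
        ENNReal.ofReal ((1 - ‖y‖ ^ 2) ^ ((((1 : ℕ) : ℝ) - 2) / 2)) *
          ∫⁻ u, f (J (Real.sqrt (1 - ‖y‖ ^ 2) • u) y) ∂(sg 1)) :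
    sg (1 + m) = ((mu m).prod (sg 1)).map (pr m) := by
  have := sg_finite 1
  have hsf : SFinite (mu m) := by unfold mu; infer_instance
  ext S hS
  rw [Measure.map_apply (pr_meas m) hS, ← lintegral_indicator_one hS,
    harch _ (measurable_one.indicator hS), ← lintegral_indicator_one (pr_meas m hS),
    lintegral_prod _ ((measurable_one.indicator (pr_meas m hS)).aemeasurable)]
  have hmeas : Measurable fun y : E m => ∫⁻ u : E 1,
      (pr m ⁻¹' S).indicator (1 : E m × E 1 → ℝ≥0∞) (y, u) ∂(sg 1) :=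
    (measurable_one.indicator (pr_meas m hS)).lintegral_prod_right'
  unfold mu
  rw [lintegral_withDensity_eq_lintegral_mul _ (wt_meas m) hmeas]
  rfl

theorem vertex_single (m : ℕ) (hm : 2 ≤ m)
    (harch : ∀ f : E (1 + m) → ℝ≥0∞, Measurable f →
      ∫⁻ z, f z ∂(sg (1 + m)) = ∫⁻ y in Metric.ball (0 : E m) 1,
        ENNReal.ofReal ((1 - ‖y‖ ^ 2) ^ ((((1 : ℕ) : ℝ) - 2) / 2)) *
          ∫⁻ u, f (J (Real.sqrt (1 - ‖y‖ ^ 2) • u) y) ∂(sg 1))
    (r : ℝ) (hr : 2 < r) : ∃ C : ℝ≥0, ∀ g : E (1 + m) → ℂ, Measurable g →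
      ∀ M : ℝ, (∀ z, ‖g z‖ ≤ M) → ∀ x : E 1,
      ∫⁻ y : E m, ‖T g (J x y)‖ₑ ^ r ≤ C * ENNReal.ofReal M ^ r := by
  have hf1 := sg_finite 1
  have hf2 := sg_finite (1 + m)
  have hsf : SFinite (mu m) := by unfold mu; infer_instance
  have hsg := sg_eq' m harch
  set K : ℝ := volume.real (Metric.ball (0 : E m) 1) * m with hK
  have hK0 : 0 ≤ K := by positivity
  obtain ⟨C, hC⟩ := hy (V := E m) hK0 hr
  refine ⟨C * (Real.toNNReal 4) ^ r, ?_⟩
  intro g hg M hM x
  have hM0 : 0 ≤ M := (norm_nonneg _).trans (hM 0)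
  -- the inner integral
  set I1 : E m → ℂ := fun w => ∫ u, cexp (-((⟪x, Real.sqrt (1 - ‖w‖ ^ 2) • u⟫ : ℝ) : ℂ) * I) *
    g (pr m (w, u)) ∂(sg 1) with hI1
  have hexp : ∀ t : ℝ, ‖cexp (-(t : ℂ) * I)‖ = 1 := by
    intro t
    have : -(t : ℂ) * I = ((-t : ℝ) : ℂ) * I := by push_cast; ring
    rw [this, Complex.norm_exp_ofReal_mul_I]
  have hI1m : Measurable I1 := by
    have h1 : Measurable (fun p : E m × E 1 =>
        cexp (-((⟪x, Real.sqrt (1 - ‖p.1‖ ^ 2) • p.2⟫ : ℝ) : ℂ) * I) * g (pr m p)) := by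
      have h2 : Measurable (fun p : E m × E 1 => (⟪x, Real.sqrt (1 - ‖p.1‖ ^ 2) • p.2⟫ : ℝ)) := by
        fun_prop
      have h3 : Measurable (fun p : E m × E 1 =>
          cexp (-((⟪x, Real.sqrt (1 - ‖p.1‖ ^ 2) • p.2⟫ : ℝ) : ℂ) * I)) := by
        fun_prop
      exact h3.mul (hg.comp (pr_meas m))
    exact (h1.stronglyMeasurable.integral_prod_right').measurable
  have hI1b : ∀ w, ‖I1 w‖ ≤ 2 * M := by
    intro w
    have h1 := norm_integral_le_of_norm_le_const (μ := sg 1) (C := M)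
      (f := fun u => cexp (-((⟪x, Real.sqrt (1 - ‖w‖ ^ 2) • u⟫ : ℝ) : ℂ) * I) *
        g (pr m (w, u))) (Filter.Eventually.of_forall fun u => by
          rw [norm_mul, hexp, one_mul]; exact hM _)
    refine h1.trans ?_
    rw [Measure.real, sg_one_univ]
    norm_num
    linarith
  -- the function on the ball
  set G : E m → ℂ := (Metric.ball (0 : E m) 1).indicator
    (fun w => (((1 - ‖w‖ ^ 2) ^ ((((1 : ℕ) : ℝ) - 2) / 2) : ℝ) : ℂ) * I1 w) with hG
  have hGm : Measurable G := by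
    apply Measurable.indicator _ measurableSet_ball
    exact ((by fun_prop : Measurable fun y : E m => (1 - ‖y‖ ^ 2)).pow_const _).complex_ofReal.mul
      hI1m
  have hT : ∀ y, T g (J x y) = ft G y := by
    intro y
    have hint0 : Integrable (fun z => cexp (-((⟪J x y, z⟫ : ℝ) : ℂ) * I) * g z) (sg (1 + m)) := by
      refine Integrable.of_bound ?_ M (Filter.Eventually.of_forall fun z => by
        rw [norm_mul, hexp, one_mul]; exact hM z)
      have h3 : Measurable (fun z : E (1 + m) => cexp (-((⟪J x y, z⟫ : ℝ) : ℂ) * I)) := by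
        fun_prop
      exact (h3.mul hg).aestronglyMeasurable
    rw [T, hsg, integral_map (pr_meas m).aemeasurable (by
      have h3 : Measurable (fun z : E (1 + m) => cexp (-((⟪J x y, z⟫ : ℝ) : ℂ) * I)) := by
        fun_prop
      exact (h3.mul hg).aestronglyMeasurable)]
    have hint : Integrable (fun p : E m × E 1 =>
        cexp (-((⟪J x y, pr m p⟫ : ℝ) : ℂ) * I) * g (pr m p)) ((mu m).prod (sg 1)) := by
      rw [hsg] at hint0
      exact hint0.comp_measurable (pr_meas m)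
    rw [integral_prod _ hint]
    have h4 : ∀ w : E m, ∫ u, cexp (-((⟪J x y, pr m (w, u)⟫ : ℝ) : ℂ) * I) * g (pr m (w, u))
        ∂(sg 1) = cexp (-((⟪y, w⟫ : ℝ) : ℂ) * I) * I1 w := by
      intro w
      rw [hI1, ← integral_const_mul]
      congr 1
      ext u
      rw [pr, J_inner, ← mul_assoc, ← Complex.exp_add]
      congr 2
      push_cast
      ring
    simp_rw [h4]
    rw [mu, integral_withDensity_eq_integral_toReal_smul (wt_meas m)
      (Filter.Eventually.of_forall fun w => ENNReal.ofReal_lt_top), ft,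
      ← integral_indicator measurableSet_ball]
    congr 1
    ext w
    by_cases hw : w ∈ Metric.ball (0 : E m) 1
    · rw [indicator_of_mem hw, hG, indicator_of_mem hw, wt, ENNReal.toReal_ofReal]
      · rw [Complex.real_smul]; ring
      · rw [mem_ball_zero_iff] at hw
        apply Real.rpow_nonneg
        nlinarith [norm_nonneg w]
    · rw [indicator_of_notMem hw, hG, indicator_of_notMem hw, mul_zero]
  simp_rw [hT]
  have hfin := hC (sh m) (sh_meas m) (sh_disj m) (fun k => sh_vol m k (by omega)) G hGm (4 * M)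
    (by positivity) (by
      intro k w hw
      have hwb : w ∈ Metric.ball (0 : E m) 1 := by
        rw [← sh_union m]; exact mem_iUnion.2 ⟨k, hw⟩
      rw [hG, indicator_of_mem hwb, norm_mul, Complex.norm_real, Real.norm_eq_abs]
      have h1 : 0 < 1 - ‖w‖ ^ 2 := lt_trans (by positivity) hw.1
      rw [abs_of_nonneg (Real.rpow_nonneg h1.le _)]
      have h2 : (1 - ‖w‖ ^ 2) ^ ((((1 : ℕ) : ℝ) - 2) / 2) ≤ 2 ^ (k + 1) := by
        have e1 : ((((1 : ℕ) : ℝ) - 2) / 2) = -(1 / 2) := by norm_num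
        rw [e1, Real.rpow_neg h1.le, ← Real.sqrt_eq_rpow]
        have h3 : (1 / 2 : ℝ) ^ (k + 1) ≤ Real.sqrt (1 - ‖w‖ ^ 2) := by
          apply Real.le_sqrt_of_sq_le
          refine le_trans (le_of_eq ?_) hw.1.le
          rw [← pow_mul, mul_comm, pow_mul]; norm_num
        have h4 : (0 : ℝ) < (1 / 2) ^ (k + 1) := by positivity
        calc (Real.sqrt (1 - ‖w‖ ^ 2))⁻¹ ≤ ((1 / 2 : ℝ) ^ (k + 1))⁻¹ := inv_anti₀ h4 h3
          _ = 2 ^ (k + 1) := by rw [← inv_pow]; norm_num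
      calc (1 - ‖w‖ ^ 2) ^ ((((1 : ℕ) : ℝ) - 2) / 2) * ‖I1 w‖ ≤ 2 ^ (k + 1) * (2 * M) :=
            mul_le_mul h2 (hI1b w) (norm_nonneg _) (by positivity)
        _ = 4 * M * 2 ^ k := by ring) (by
      intro w hw
      rw [sh_union] at hw
      rw [hG, indicator_of_notMem hw])
  refine hfin.trans (le_of_eq ?_)
  rw [ENNReal.ofReal_mul (by norm_num), ENNReal.mul_rpow_of_nonneg _ _ (by linarith),
    ENNReal.coe_mul, mul_assoc]
  congr 2
  rw [ENNReal.coe_rpow_of_nonneg _ (by linarith)]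
  rfl

end Pool.Agent.TH941.FN
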